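import Pool.Agent.Helper92.ZH.Goals

/-!
# MP_a41896_nt, project T3, packet ZEH: the zero estimate with two blocks
-/

set_option autoImplicit false

open MvPolynomial

namespace Pool.Agent.Helper28.ZH.ZEH

open WeierstrassCurve Height
open Pool.Agent.Helper29.BL Pool.Agent.Helper92.Ru Pool.Agent.Helper42.SG
open Pool.Agent.Helper68.VN
open Pool.Agent.Helper68.T3 (TayW)
open Pool.Agent.Helper60.HC (Lo)
open Pool.Agent.Helper92.ZH

lemma Bf_cn {K : Type} [Field K] {A : Type} [CommRing A] [Algebra K A] {σ : Type}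
    (W : σ → Affine K) (x y : σ → K) (h : ∀ i, y i ^ 2 = Bf (W i) (x i)) (i : σ) :
    cn A y i ^ 2 = Bf (mapS A W i) (cn A x i) := by
  have h1 := congrArg (algebraMap K A) (h i)
  rw [map_pow] at h1
  unfold cn mapS
  rw [h1]
  simp only [Bf, WeierstrassCurve.map_b₂, WeierstrassCurve.map_b₄, WeierstrassCurve.map_b₆,
    map_add, map_mul, map_pow, map_ofNat]

lemma IndGe_mono {k : Type} [Field k] {σ : Type} [Fintype σ] {r : σ → ℕ} {ξ : σ → k} {θ θ' : ℝ}
    {p : MvPolynomial σ k} (h : IndGe r ξ θ p) (hθ : θ' ≤ θ) : IndGe r ξ θ' p :=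
  fun e he => hθ.trans (h e he)

lemma degreeOf_spc {K : Type} [Field K] {σ : Type} [Fintype σ] [DecidableEq σ] (x0 : σ → K)
    (R : MvPolynomial ((Fin 2 × σ) ⊕ σ) K) (h : Fin 2 × σ) :
    (spc x0 R).degreeOf h ≤ R.degreeOf (Sum.inl h) := by
  classical
  have h1 : spc x0 R = ∑ d ∈ R.support, C (R.coeff d) *
      ∏ i : (Fin 2 × σ) ⊕ σ, (Sum.elim X (fun i => C (x0 i)) i : MvPolynomial (Fin 2 × σ) K) ^ d i := by
    unfold spc
    rw [aeval_def, eval₂_eq']
    rfl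
  rw [h1]
  refine (degreeOf_sum_le h _ _).trans (Finset.sup_le fun d hd => ?_)
  refine (degreeOf_mul_le h _ _).trans ?_
  rw [degreeOf_C, zero_add]
  refine (degreeOf_prod_le h _ _).trans ?_
  rw [Fintype.sum_sum_type]
  have h2 : ∑ i : σ, degreeOf h ((Sum.elim X (fun i => C (x0 i)) (Sum.inr i) :
      MvPolynomial (Fin 2 × σ) K) ^ d (Sum.inr i)) = 0 := by
    apply Finset.sum_eq_zero
    intro i _
    rw [Sum.elim_inr, ← C_pow, degreeOf_C]
  rw [h2, add_zero]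
  have h3 : ∀ i : Fin 2 × σ, degreeOf h ((Sum.elim X (fun i => C (x0 i)) (Sum.inl i) :
      MvPolynomial (Fin 2 × σ) K) ^ d (Sum.inl i)) ≤ if i = h then d (Sum.inl h) else 0 := by
    intro i
    refine (degreeOf_pow_le h _ _).trans ?_
    rw [Sum.elim_inl, degreeOf_X]
    by_cases hi : i = h
    · subst hi
      simp
    · rw [if_neg hi, if_neg (Ne.symm hi), mul_zero]
  refine (Finset.sum_le_sum fun i _ => h3 i).trans ?_
  rw [Finset.sum_ite_eq' Finset.univ h]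
  simp only [Finset.mem_univ, if_true]
  exact monomial_le_degreeOf _ hd

/-- **ZEH**. -/
theorem t (hNRH : NRH) (hIXH : IXH) (hWRZ : WRZ) (hBRH : BRH) :
    Pool.Agent.Helper92.ZH.ZEH := by
  classical
  intro K _ _ σ _ _ W hW M D0 C0 CA hM hC0 hCA
  obtain ⟨D1, w0, C1, hw0, hC1, hN⟩ := hNRH K σ W hW M D0 C0 CA hM hC0 hCA
  obtain ⟨s0, C2, hs0, hC2, hZ⟩ := hWRZ K (Fin 2 × σ) σ w0
  obtain ⟨w1, hw1d⟩ : ∃ w1 : ℕ, w1 = s0 * w0 := ⟨_, rfl⟩
  have hw1 : 1 ≤ w1 := by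
    rw [hw1d]
    exact Nat.one_le_iff_ne_zero.mpr (Nat.mul_ne_zero (by omega) (by omega))
  have hw1' : (1 : ℝ) ≤ w1 := by exact_mod_cast hw1
  obtain ⟨D2, Kc, ω, hKc, hω, hω1, hR⟩ := hBRH K σ (1 / (2 * w1)) (by positivity)
  obtain ⟨CH, hCH⟩ : ∃ CH : ℝ, CH = s0 * (C1 + C2 * w0) + 1 := ⟨_, rfl⟩
  have hCH1 : 1 ≤ CH := by
    rw [hCH]
    have : 0 ≤ (s0 : ℝ) * (C1 + C2 * w0) := by positivity
    linarith
  obtain ⟨K1, hK1d⟩ : ∃ K1 : ℝ, K1 = max (2 * (s0 : ℝ)) (1 / ω) := ⟨_, rfl⟩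
  have hK1a : 2 * (s0 : ℝ) ≤ K1 := hK1d ▸ le_max_left _ _
  have hK1b : 1 / ω ≤ K1 := hK1d ▸ le_max_right _ _
  have hs0' : (1 : ℝ) ≤ s0 := by exact_mod_cast hs0
  refine ⟨max D1 D2, max C1 (Kc * CH), K1, le_max_of_le_left hC1, ?_⟩
  intro e c i' g2 g0 ξ ψ x0 ψ0 X Ψ hc hint hhouse hTay hψ hψ0 hG2 hG0 hx0 hind hlac hbig
  have hK1 : (1 : ℝ) ≤ K1 := by linarith
  have hq1 : (1 : ℝ) ≤ 4 ^ e 1 := one_le_pow₀ (by norm_num)
  have hq10 : (4 : ℝ) ^ e 1 ≤ 4 ^ e 0 := by nlinarith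
  have hq0 : (1 : ℝ) ≤ 4 ^ e 0 := hq1.trans hq10
  have he : e 1 ≤ e 0 := by
    have h1 : (4 : ℕ) ^ e 1 ≤ 4 ^ e 0 := by exact_mod_cast hq10
    exact (Nat.pow_le_pow_iff_right (by norm_num)).mp h1
  have hqj : ∀ j : Fin 2, (4 : ℝ) ^ e j ≤ 4 ^ e 0 := by
    intro j
    fin_cases j
    · exact le_rfl
    · exact hq10
  rcases hN e c i' g2 g0 x0 ψ0 he hc hint hhouse hG2 hG0 hx0 hψ0 hind with hlow | hRR
  · right; right; left
    obtain ⟨g, h1, h2, h3, h4, h5⟩ := hlow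
    exact ⟨g, h1, fun i => (h2 i).trans (le_max_left _ _), h3, h4,
      h5.trans (mul_le_mul_of_nonneg_right (le_max_left _ _) (by positivity))⟩
  · obtain ⟨R, hR0, hRi, hRd, hRr, hRH, hRf⟩ := hRR
    by_cases hvan : ∃ α : Fin 2 × σ →₀ ℕ, wt (fun h : Fin 2 × σ => 4 ^ e h.1) α < 1 ∧
          MvPowerSeries.coeff α (PT W 2 M 1 e c (fun _ _ => false) X Ψ x0 ψ0) ≠ 0
    · exact Or.inr (Or.inr (Or.inr hvan))
    push Not at hvan
    have hOn : OnB W X Ψ (cn _ x0) (cn (MvPowerSeries (Fin 2 × σ) K) ψ0) :=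
      ⟨hTay.on, Bf_cn W x0 ψ0 hψ0⟩
    obtain ⟨g, hg⟩ := hRf (MvPowerSeries (Fin 2 × σ) K) X Ψ hOn hTay.rel
    have hcomp : aeval (fun h : Fin 2 × σ => X h.1 h.2) (spc x0 R) =
        aeval (Sum.elim (fun h : Fin 2 × σ => X h.1 h.2)
          (cn (MvPowerSeries (Fin 2 × σ) K) x0)) R := by
      have h2 : (aeval (fun h : Fin 2 × σ => X h.1 h.2)).comp (spc x0) =
          (aeval (Sum.elim (fun h : Fin 2 × σ => X h.1 h.2)
            (cn (MvPowerSeries (Fin 2 × σ) K) x0)) :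
            MvPolynomial ((Fin 2 × σ) ⊕ σ) K →ₐ[K] MvPowerSeries (Fin 2 × σ) K) := by
        apply MvPolynomial.algHom_ext
        rintro (h | i)
        · simp [spc]
        · simp [spc, cn]
      exact DFunLike.congr_fun h2 R
    have hdeg0 : (spc x0 R).degreeOf (1, i') = 0 := by
      have h1 := degreeOf_spc x0 R (1, i')
      rw [hRi] at h1
      exact Nat.le_zero.mp h1
    have hI : IndGe (fun h : Fin 2 × σ => 4 ^ e h.1) (fun h => ξ h.1 h.2) 1 (spc x0 R) :=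
      hIXH K σ W i' g2 ξ ψ X Ψ (spc x0 R)
        (PT W 2 M 1 e c (fun _ _ => false) X Ψ x0 ψ0) g (fun h => 4 ^ e h.1) 1 hTay hψ
        (fun h => Nat.one_le_pow _ _ (by norm_num)) hdeg0 (hcomp.trans hg) hvan
    have hqN : ∀ j : Fin 2, 4 ^ e j ≤ 4 ^ e 0 := fun j => by exact_mod_cast hqj j
    obtain ⟨V, hV, hVd, hVH, hVI⟩ := hZ R x0 (w0 * 4 ^ e 0)
      (fun h => 4 ^ e h.1) (fun h => ξ h.1 h.2) 1 K1
      (Nat.one_le_iff_ne_zero.mpr (Nat.mul_ne_zero (by omega) (by positivity)))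
      (fun h => (hRd h).trans (Nat.mul_le_mul_left _ (hqN _)))
      hRr (by linarith) (fun h => by
        push_cast
        have h1 : (4 : ℝ) ^ e 1 ≤ 4 ^ e h.1 := by
          rcases h with ⟨j, i⟩
          fin_cases j
          · exact hq10
          · exact le_rfl
        exact hbig.trans h1) hR0 hI
    have hVi : V.degreeOf (1, i') = 0 := by
      have h1 := hVd (1, i')
      rw [hRi, mul_zero] at h1
      exact Nat.le_zero.mp h1
    have hmain := hR i' (fun j => 4 ^ e j) ξ (CH * 4 ^ e 0) w1 V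
      (by
        intro j
        refine ⟨Nat.one_le_pow _ _ (by norm_num), ?_⟩
        push_cast
        have h1 := hqj j
        nlinarith)
      (by
        push_cast
        have h2 : 1 ≤ ω * K1 := by
          have h3 : ω * (1 / ω) ≤ ω * K1 := mul_le_mul_of_nonneg_left hK1b hω.le
          rwa [mul_one_div_cancel hω.ne'] at h3
        calc (4 : ℝ) ^ e 1 = 1 * 4 ^ e 1 := (one_mul _).symm
          _ ≤ (ω * K1) * 4 ^ e 1 := mul_le_mul_of_nonneg_right h2 (by positivity)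
          _ = ω * (K1 * 4 ^ e 1) := by ring
          _ ≤ ω * 4 ^ e 0 := mul_le_mul_of_nonneg_left hlac hω.le)
      hV hVi (by linarith) (by
        intro h
        have h1 : V.degreeOf h ≤ 4 ^ e h.1 * w1 := by
          refine (hVd h).trans ?_
          refine (Nat.mul_le_mul_left _ (hRd h)).trans (le_of_eq ?_)
          rw [hw1d]
          ring
        push_cast
        exact_mod_cast h1) (by
        refine hVH.trans ?_
        have h1 : Real.log (PH R) + C2 * ((w0 * 4 ^ e 0 : ℕ) : ℝ) ≤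
            (C1 + C2 * w0) * 4 ^ e 0 := by
          push_cast
          linarith [hRH]
        calc (s0 : ℝ) * (Real.log (PH R) + C2 * ((w0 * 4 ^ e 0 : ℕ) : ℝ))
            ≤ s0 * ((C1 + C2 * w0) * 4 ^ e 0) :=
              mul_le_mul_of_nonneg_left h1 (by positivity)
          _ = (CH - 1) * 4 ^ e 0 := by rw [hCH]; ring
          _ ≤ CH * 4 ^ e 0 := by nlinarith
          _ = CH * 4 ^ e 0 * 1 := (mul_one _).symm
          _ ≤ CH * 4 ^ e 0 * w1 :=
              mul_le_mul_of_nonneg_left hw1' (by positivity)) (by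
        apply IndGe_mono hVI
        have h1 : (s0 : ℝ) / K1 ≤ 1 / 2 := by
          rw [div_le_div_iff₀ (by linarith) (by norm_num)]
          linarith
        have h2 : 1 / (2 * (w1 : ℝ)) * w1 = 1 / 2 := by
          have : (w1 : ℝ) ≠ 0 := by linarith
          field_simp
        rw [h2]
        linarith)
    rcases hmain with ⟨f, hf, hfd, hfe, hfh⟩ | ⟨f, hf, hfd, hfi, hfe, hfh⟩
    · left
      refine ⟨f, hf, fun i => (hfd i).trans (le_max_right _ _), hfe, ?_⟩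
      refine le_trans ?_ (le_max_right _ _)
      push_cast at hfh
      have h1 : (0 : ℝ) < 4 ^ e 0 := by positivity
      have h2 : (4 : ℝ) ^ e 0 * Real.log (PH f) ≤ 4 ^ e 0 * (Kc * CH) := by
        linarith
      exact le_of_mul_le_mul_left h2 h1
    · right; left
      refine ⟨f, hf, fun i => (hfd i).trans (le_max_right _ _), ?_, hfe, ?_⟩
      · intro i hi
        have h1 : i = i' := by
          by_contra h2
          exact hi (Finset.mem_erase.mpr ⟨h2, Finset.mem_univ _⟩)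
        rw [h1]
        exact hfi
      · push_cast at hfh
        have h1 : (0 : ℝ) < 4 ^ e 1 := by positivity
        have h2 : Real.log (PH f) ≤ Kc * CH * (4 ^ e 0 / 4 ^ e 1) := by
          rw [← mul_div_assoc, le_div_iff₀ h1]
          linarith
        exact h2.trans (mul_le_mul_of_nonneg_right (le_max_right _ _) (by positivity))

end Pool.Agent.Helper28.ZH.ZEH
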